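import Mathlib
set_option autoImplicit false
open Finset
namespace Pool.Agent.Results.MP_3a3582_co.Riesz

/-- `A` is dissociated: no nonempty `B ⊆ A` has signs `±1` with signed sum zero. -/
def Diss {G : Type} [AddCommGroup G] (A : Finset G) : Prop :=
  ¬ ∃ B ⊆ A, B.Nonempty ∧ ∃ ε : G → ℤ, (∀ b ∈ B, ε b = 1 ∨ ε b = -1) ∧ ∑ b ∈ B, ε b • b = 0

/-- `τ(G) = k`: the largest size of a dissociated subset of `G` is `k`. -/
def TauEq (G : Type) [AddCommGroup G] (k : ℕ) : Prop :=
  IsGreatest {j | ∃ A : Finset G, Diss A ∧ A.card = j} k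

lemma char_sum {G : Type} [AddCommGroup G] (χ : AddChar G ℂ) (s : Finset G) (f : G → G) :
    χ (∑ g ∈ s, f g) = ∏ g ∈ s, χ (f g) := by
  classical
  induction s using Finset.induction_on with
  | empty => simp
  | insert a s ha ih => rw [Finset.sum_insert ha, Finset.prod_insert ha, AddChar.map_add_eq_mul, ih]

lemma riesz {G : Type} [AddCommGroup G] [Fintype G] (A : Finset G) (hA : Diss A) (c : G → ℝ)
    (hc : ∀ a ∈ A, ∀ χ : AddChar G ℂ, 0 ≤ 1 + 2 * c a * (χ a).re) :
    ∏ a ∈ A, (1 + 2 * c a) ≤ Fintype.card G := by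
  classical
  set t : G → Finset ℤ := fun g => if g ∈ A then {-1, 0, 1} else {0} with ht
  set w : G → ℤ → ℂ := fun g e => if e = 0 then 1 else (c g : ℂ) with hw
  have h1 : ∀ χ : AddChar G ℂ, ((∏ a ∈ A, (1 + 2 * c a * (χ a).re) : ℝ) : ℂ)
      = ∏ g, ∑ e ∈ t g, w g e * χ (e • g) := by
    intro χ
    rw [Complex.ofReal_prod, ← Finset.prod_subset (Finset.subset_univ A)]
    · refine Finset.prod_congr rfl (fun a ha => ?_)
      simp only [ht, if_pos ha, hw]
      rw [Finset.sum_insert (by decide), Finset.sum_insert (by decide), Finset.sum_singleton]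
      simp only [neg_smul, one_smul, zero_smul, AddChar.map_zero_eq_one, AddChar.map_neg_eq_conj]
      have := Complex.add_conj (χ a)
      push_cast at this ⊢
      linear_combination (-(c a : ℂ)) * this
    · intro g _ hg
      simp [ht, hg, hw]
  have h2 : ∑ χ : AddChar G ℂ, ∏ g, ∑ e ∈ t g, w g e * χ (e • g) = Fintype.card G := by
    simp only [Finset.prod_univ_sum, Finset.prod_mul_distrib, ← char_sum]
    rw [Finset.sum_comm]
    simp only [← Finset.mul_sum, AddChar.sum_apply_eq_ite]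
    rw [Finset.sum_eq_single (0 : G → ℤ)]
    · simp [hw]
    · intro ε hε hne
      rw [if_neg, mul_zero]
      intro h0
      have hε' := Fintype.mem_piFinset.mp hε
      refine hA ⟨univ.filter (fun g => ε g ≠ 0), ?_, ?_, ε, ?_, ?_⟩
      · intro g hg
        by_contra hn
        have := hε' g
        simp only [ht, if_neg hn, mem_singleton] at this
        exact (mem_filter.mp hg).2 this
      · obtain ⟨g, hg⟩ := Function.ne_iff.mp hne
        exact ⟨g, mem_filter.mpr ⟨mem_univ _, hg⟩⟩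
      · intro g hg
        have h3 := hε' g
        have h4 := (mem_filter.mp hg).2
        simp only [ht] at h3
        split_ifs at h3 <;> simp only [mem_insert, mem_singleton] at h3 <;> omega
      · rw [Finset.sum_filter_of_ne, h0]
        intro g _ hg e
        exact hg (by rw [e, zero_smul])
    · intro h
      exfalso
      refine h (Fintype.mem_piFinset.mpr (fun g => ?_))
      simp only [ht]
      split_ifs <;> simp
  simp only [← h1] at h2
  have h3 : ∑ χ : AddChar G ℂ, ∏ a ∈ A, (1 + 2 * c a * (χ a).re) = (Fintype.card G : ℝ) := by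
    exact_mod_cast h2
  rw [← h3]
  have h4 := Finset.single_le_sum (f := fun χ : AddChar G ℂ => ∏ a ∈ A, (1 + 2 * c a * (χ a).re))
    (fun χ _ => Finset.prod_nonneg (fun a ha => hc a ha χ)) (mem_univ (0 : AddChar G ℂ))
  simpa using h4

lemma re_root (z : ℂ) (n : ℕ) (hn : Odd n) (hz : z ^ n = 1) : -Real.cos (Real.pi / n) ≤ z.re := by
  have n0 : n ≠ 0 := by rintro rfl; simp at hn
  have nR : (1 : ℝ) ≤ n := by exact_mod_cast Nat.one_le_iff_ne_zero.mpr n0
  have h1 : ‖-z‖ = 1 := by rw [norm_neg]; exact Complex.norm_eq_one_of_pow_eq_one hz n0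
  have h2 := Complex.norm_mul_exp_arg_mul_I (-z)
  rw [h1, Complex.ofReal_one, one_mul] at h2
  set φ := Complex.arg (-z) with hφ
  have h3 : Real.cos φ = -z.re := by
    have := congrArg Complex.re h2
    rwa [Complex.exp_ofReal_mul_I_re, Complex.neg_re] at this
  have h4 : Real.cos (n * φ) = -1 := by
    have e : Complex.exp (((n * φ : ℝ) : ℂ) * Complex.I) = -1 := by
      push_cast
      rw [mul_assoc, Complex.exp_nat_mul, h2, hn.neg_pow, hz]
    have := congrArg Complex.re e
    rwa [Complex.exp_ofReal_mul_I_re] at this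
  have h5 : Real.pi / n ≤ |φ| := by
    by_contra h
    push Not at h
    rw [lt_div_iff₀ (by linarith)] at h
    have e : |n * φ| < Real.pi := by
      rw [abs_mul, abs_of_nonneg (by linarith : (0 : ℝ) ≤ n), mul_comm]; exact h
    have := Real.cos_lt_cos_of_nonneg_of_le_pi (abs_nonneg _) le_rfl e
    rw [Real.cos_pi, Real.cos_abs, h4] at this
    exact lt_irrefl _ this
  have h6 := Real.cos_le_cos_of_nonneg_of_le_pi (by positivity) (Complex.abs_arg_le_pi (-z)) h5
  rw [Real.cos_abs] at h6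
  linarith

lemma cos_pos (n : ℕ) (hn : 3 ≤ n) : 0 < Real.cos (Real.pi / n) := by
  have nR : (3 : ℝ) ≤ n := by exact_mod_cast hn
  have := Real.pi_pos
  refine Real.cos_pos_of_mem_Ioo ⟨?_, ?_⟩
  · have : 0 < Real.pi / n := by positivity
    linarith
  · exact div_lt_div_of_pos_left this two_pos (by linarith)

lemma bound_ord {G : Type} [AddCommGroup G] [Fintype G] (A : Finset G) (hA : Diss A) :
    ∏ a ∈ A, (if Odd (addOrderOf a) then 1 + 1 / Real.cos (Real.pi / addOrderOf a) else 2)
      ≤ (Fintype.card G : ℝ) := by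
  classical
  have := riesz A hA
    (fun a => if Odd (addOrderOf a) then 1 / (2 * Real.cos (Real.pi / addOrderOf a)) else 1 / 2) ?_
  · refine le_of_eq_of_le (Finset.prod_congr rfl (fun a _ => ?_)) this
    split_ifs
    · rw [mul_one_div, ← div_div, div_self two_ne_zero]
    · norm_num
  · intro a ha χ
    split_ifs with h
    · have a0 : a ≠ 0 := by
        rintro rfl
        exact hA ⟨{0}, by simpa using ha, by simp, fun _ => 1, by simp, by simp⟩
      have h1 : addOrderOf a ≠ 1 := by rwa [Ne, AddMonoid.addOrderOf_eq_one_iff]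
      have h3 : 3 ≤ addOrderOf a := by obtain ⟨k, hk⟩ := h; omega
      have h4 := cos_pos _ h3
      have h5 := re_root (χ a) _ h (by
        rw [← AddChar.map_nsmul_eq_pow, addOrderOf_nsmul_eq_zero, AddChar.map_zero_eq_one])
      rw [mul_one_div, ← div_div, div_self two_ne_zero, one_div_mul_eq_div,
        ← neg_le_iff_add_nonneg', le_div_iff₀ h4]
      linarith
    · have h1 : ‖χ a‖ = 1 := AddChar.norm_apply χ a
      have h2 := Complex.abs_re_le_norm (χ a)
      rw [h1, abs_le] at h2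
      linarith [h2.1]

lemma bound_odd {G : Type} [AddCommGroup G] [Fintype G] (n : ℕ) (hn : Odd n) (h3 : 3 ≤ n)
    (hG : ∀ g : G, n • g = 0) (A : Finset G) (hA : Diss A) :
    (1 + 1 / Real.cos (Real.pi / n)) ^ A.card ≤ (Fintype.card G : ℝ) := by
  have h4 := cos_pos _ h3
  have := riesz A hA (fun _ => 1 / (2 * Real.cos (Real.pi / n))) ?_
  · rwa [Finset.prod_const, mul_one_div, ← div_div, div_self two_ne_zero] at this
  · intro a _ χ
    have h5 := re_root (χ a) _ hn (by
      rw [← AddChar.map_nsmul_eq_pow, hG, AddChar.map_zero_eq_one])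
    rw [mul_one_div, ← div_div, div_self two_ne_zero, one_div_mul_eq_div,
      ← neg_le_iff_add_nonneg', le_div_iff₀ h4]
    linarith

def vv : Fin 3 → ℤ := ![0, 1, -1]

def Fam (n r k : ℕ) : Prop :=
  ∃ a : Fin k → Fin r → ZMod n, ∀ e : Fin k → Fin 3, ∑ i, vv (e i) • a i = 0 → ∀ i, e i = 0

lemma fam_diss (n r k : ℕ) (h : Fam n r k) :
    ∃ A : Finset (Fin r → ZMod n), Diss A ∧ A.card = k := by
  classical
  obtain ⟨a, ha⟩ := h
  have inj : Function.Injective a := by
    intro i j hij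
    by_contra hne
    have := ha (fun l => if l = i then 1 else if l = j then 2 else 0) (by
      rw [Finset.sum_eq_add_of_mem i j (mem_univ _) (mem_univ _) hne]
      · simp [vv, Ne.symm hne, hij]
      · intro l _ hl
        simp [vv, hl.1, hl.2]) i
    simp at this
  refine ⟨univ.image a, ?_, by rw [Finset.card_image_of_injective _ inj]; simp⟩
  rintro ⟨B, hB, ⟨b, hb⟩, ε, hε, h0⟩
  obtain ⟨i, -, rfl⟩ := mem_image.mp (hB hb)
  have := ha (fun l => if a l ∈ B then (if ε (a l) = 1 then 1 else 2) else 0) (by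
    have e1 : ∀ l, vv (if a l ∈ B then (if ε (a l) = 1 then 1 else 2) else 0) • a l
        = if a l ∈ B then ε (a l) • a l else 0 := by
      intro l
      by_cases h1 : a l ∈ B
      · rcases hε _ h1 with h2 | h2 <;> simp [vv, h1, h2]
      · simp [vv, h1]
    simp only [e1]
    rw [← Finset.sum_image (s := univ) (g := a) (f := fun g => if g ∈ B then ε g • g else 0)
      (fun x _ y _ h => inj h), ← Finset.sum_filter, Finset.filter_mem_eq_inter,
      Finset.inter_eq_right.mpr hB, h0]) i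
  simp only [hb, if_true] at this
  split_ifs at this <;> simp at this

lemma fam_add (n r s k l : ℕ) (h1 : Fam n r k) (h2 : Fam n s l) : Fam n (r + s) (k + l) := by
  obtain ⟨a, ha⟩ := h1
  obtain ⟨b, hb⟩ := h2
  refine ⟨Fin.append (fun i => Fin.append (a i) 0) (fun j => Fin.append 0 (b j)), fun e he => ?_⟩
  rw [Fin.sum_univ_add] at he
  simp only [Fin.append_left, Fin.append_right] at he
  have e1 := ha (fun i => e (Fin.castAdd l i)) (by
    funext x
    have := congrFun he (Fin.castAdd s x)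
    simpa [Finset.sum_apply] using this)
  have e2 := hb (fun j => e (Fin.natAdd k j)) (by
    funext x
    have := congrFun he (Fin.natAdd r x)
    simpa [Finset.sum_apply] using this)
  intro i
  exact Fin.addCases e1 e2 i

lemma fam_mul (n r k : ℕ) (h : Fam n r k) (m : ℕ) : Fam n (r * m) (k * m) := by
  induction m with
  | zero => exact ⟨fun i => i.elim0, fun _ _ i => i.elim0⟩
  | succ m ih => exact fam_add _ _ _ _ _ ih h

lemma f71 : Fam 7 1 2 := ⟨![![1], ![2]], by decide +kernel⟩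
lemma f72 : Fam 7 2 5 := ⟨![![0, 1], ![1, 0], ![1, 2], ![1, 4], ![3, 2]], by decide +kernel⟩
lemma f91 : Fam 9 1 3 := ⟨![![1], ![2], ![4]], by decide +kernel⟩
lemma f131 : Fam 13 1 3 := ⟨![![1], ![2], ![4]], by decide +kernel⟩
lemma f132 : Fam 13 2 7 :=
  ⟨![![8, 0], ![4, 0], ![2, 9], ![5, 9], ![12, 9], ![3, 1], ![6, 2]], by decide +kernel⟩
lemma f171 : Fam 17 1 4 := ⟨![![1], ![2], ![4], ![8]], by decide +kernel⟩
lemma f231 : Fam 23 1 4 := ⟨![![1], ![2], ![4], ![8]], by decide +kernel⟩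

lemma sec_ge (n : ℕ) (hn : 4 ≤ n) :
    1 + 1 / (1 - (3.141592 / n) ^ 2 / 2 + (3.141593 / n) ^ 4 * (5 / 96) : ℝ)
      ≤ 1 + 1 / Real.cos (Real.pi / n) := by
  have nR : (4 : ℝ) ≤ n := by exact_mod_cast hn
  have p1 := Real.pi_gt_d6
  have p2 := Real.pi_lt_d6
  have x0 : 0 ≤ Real.pi / n := by positivity
  have h := Real.cos_bound (x := Real.pi / n) (by
    rw [abs_of_nonneg x0, div_le_one (by linarith)]; linarith)
  rw [abs_of_nonneg x0, abs_le] at h
  have a1 : (3.141592 / n : ℝ) ^ 2 ≤ (Real.pi / n) ^ 2 := by gcongr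
  have a2 : (Real.pi / n) ^ 4 ≤ (3.141593 / n : ℝ) ^ 4 := by gcongr
  have := one_div_le_one_div_of_le (cos_pos n (by omega))
    (show Real.cos (Real.pi / n) ≤ 1 - (3.141592 / n) ^ 2 / 2 + (3.141593 / n) ^ 4 * (5 / 96) by
      linarith [h.2])
  linarith

lemma tau_of (n r k : ℕ) (hn : Odd n) (h4 : 4 ≤ n) (β : ℝ) (h1 : 1 ≤ β)
    (hβ : β ≤ 1 + 1 / (1 - (3.141592 / n) ^ 2 / 2 + (3.141593 / n) ^ 4 * (5 / 96) : ℝ))
    (hf : Fam n r k) (hk : (n : ℝ) ^ r < β ^ (k + 1)) : TauEq (Fin r → ZMod n) k := by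
  have : NeZero n := ⟨by omega⟩
  refine ⟨fam_diss n r k hf, ?_⟩
  rintro j ⟨A, hA, rfl⟩
  have h2 := bound_odd n hn (by omega) (fun g => by funext i; simp) A hA
  have h3 : β ^ A.card ≤ (n : ℝ) ^ r := by
    refine (pow_le_pow_left₀ (by linarith) (hβ.trans (sec_ge n h4)) _).trans (h2.trans_eq ?_)
    simp
  by_contra hc
  push Not at hc
  have := pow_le_pow_right₀ h1 (show k + 1 ≤ A.card from hc)
  linarith

theorem result :
    (∀ (G : Type) [AddCommGroup G] [Fintype G] (A : Finset G), Diss A →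
      ∏ a ∈ A, (if Odd (addOrderOf a) then 1 + 1 / Real.cos (Real.pi / addOrderOf a) else 2)
        ≤ (Fintype.card G : ℝ)) ∧
    (∀ (G : Type) [AddCommGroup G] [Fintype G] (n : ℕ), Odd n → 3 ≤ n → (∀ g : G, n • g = 0) →
      ∀ A : Finset G, Diss A →
        (1 + 1 / Real.cos (Real.pi / n)) ^ A.card ≤ (Fintype.card G : ℝ)) ∧
    (∀ r ∈ ({2, 3, 4, 6, 8} : Finset ℕ), TauEq (Fin r → ZMod 7) (5 * r / 2) ∧
      TauEq (Fin r → ZMod 13) (7 * r / 2)) ∧
    (∀ r ≤ 31, TauEq (Fin r → ZMod 9) (3 * r)) ∧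
    (∀ r ≤ 26, TauEq (Fin r → ZMod 17) (4 * r)) ∧
    TauEq (Fin 2 → ZMod 23) 8 := by
  refine ⟨fun G _ _ A hA => bound_ord A hA, fun G _ _ n h1 h2 h3 A hA => bound_odd n h1 h2 h3 A hA,
    ?_, ?_, ?_, ?_⟩
  · intro r hr
    have t7 := fun r k => tau_of 7 r k (by decide) (by norm_num) 2.1093 (by norm_num) (by norm_num)
    have t13 := fun r k =>
      tau_of 13 r k (by decide) (by norm_num) 2.0298 (by norm_num) (by norm_num)
    simp only [mem_insert, mem_singleton] at hr
    rcases hr with rfl | rfl | rfl | rfl | rfl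
    · exact ⟨t7 2 5 f72 (by norm_num), t13 2 7 f132 (by norm_num)⟩
    · exact ⟨t7 3 7 (fam_add _ _ _ _ _ f72 f71) (by norm_num),
        t13 3 10 (fam_add _ _ _ _ _ f132 f131) (by norm_num)⟩
    · exact ⟨t7 4 10 (fam_mul _ _ _ f72 2) (by norm_num),
        t13 4 14 (fam_mul _ _ _ f132 2) (by norm_num)⟩
    · exact ⟨t7 6 15 (fam_mul _ _ _ f72 3) (by norm_num),
        t13 6 21 (fam_mul _ _ _ f132 3) (by norm_num)⟩
    · exact ⟨t7 8 20 (fam_mul _ _ _ f72 4) (by norm_num),
        t13 8 28 (fam_mul _ _ _ f132 4) (by norm_num)⟩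
  · intro r hr
    have h := fam_mul _ _ _ f91 r
    rw [one_mul] at h
    refine tau_of 9 r _ (by decide) (by norm_num) 2.06399 (by norm_num) (by norm_num) h ?_
    interval_cases r <;> norm_num
  · intro r hr
    have h := fam_mul _ _ _ f171 r
    rw [one_mul] at h
    refine tau_of 17 r _ (by decide) (by norm_num) 2.0173 (by norm_num) (by norm_num) h ?_
    interval_cases r <;> norm_num
  · exact tau_of 23 2 8 (by decide) (by norm_num) 2.009 (by norm_num) (by norm_num)
      (fam_mul _ _ _ f231 2) (by norm_num)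

end Pool.Agent.Results.MP_3a3582_co.Riesz
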